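import Pool.Agent.J4H59.PJ.ConeD

/-!
# Finitely many translates of the two cones cover the group
-/

set_option autoImplicit false
set_option linter.unusedSectionVars false

open scoped Classical Pointwise

namespace Pool.Agent.J4H59.PK

open Pool.Agent.Helper386.PD3 Pool.Agent.J4H59.PD Pool.Agent.J4H59.PE Pool.Agent.J4H59.PF
open Pool.Agent.J4H59.PI Pool.Agent.J4H59.PJ Pool.Agent.Helper158

noncomputable section

variable {G : Type} [Group G] {N H : Subgroup G}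

/-- The main argument: finitely many translates of the two cones cover `G ⧸ N`. -/
theorem core_C {n : ℕ} {w : G →* ℤˣ} {e0 e1 e2 e3 d0 d1 d2 : MR G n}
    (h : Full w e0 e1 e2 e3 d0 d1 d2) (hfgG : Group.FG G)
    (htf : ∀ (x : G) (k : ℤ), k ≠ 0 → x ^ k = 1 → x = 1)
    (hfg : N.FG) (hNinf : Infinite N) (hN : AllDer (G := N) (RR N))
    (hNH : N ≤ H) (hcm : ∀ h ∈ H, (As N h).index ≠ 0) {t : G} (ht : t ∈ H)
    (hd : ∀ k l c, c ∈ lvl N t k → c ∈ lvl N t l → k = l)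
    (hB : ∀ (B : Subgroup G) (y : G), B ≤ H → B ⊓ N = ⊥ →
      (∃ T : Finset G, ∀ b ∈ B, ∃ g ∈ T, g⁻¹ • ((y * b : G) : G ⧸ N) ∈ RD N t) →
      AllDer (G := G) (famF B).sub) :
    ∃ T : Finset G, ∀ y : G ⧸ N, ∃ g ∈ T, g⁻¹ • y ∈ RD N t := by
  by_contra hcover
  push Not at hcover
  obtain ⟨d, x, hcl⟩ := exists_gens hfg
  have hxG : Subgroup.closure (Set.range fun i => (x i : G)) = N := by
    have h1 : (Set.range fun i => (x i : G)) = N.subtype '' (Set.range x) := by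
      rw [← Set.range_comp]
      rfl
    rw [h1, ← MonoidHom.map_closure, hcl, ← MonoidHom.range_eq_map, Subgroup.range_subtype]
  obtain ⟨S, hS⟩ := Group.fg_def.1 hfgG
  let 𝒱 := VVq x w
  let rp' := coneD N t hd
  let rm := coneD N t⁻¹ (hd_symm hd)
  have hp0 : ((1 : G) : G ⧸ N) ∈ rp'.L 0 := rfl
  have hm0 : ((1 : G) : G ⧸ N) ∈ rm.L 0 := rfl
  have hposne : rp'.R.Nonempty := ⟨_, 0, hp0⟩
  have hnegne : rm.R.Nonempty := ⟨_, 0, hm0⟩
  have hP : ResInner w (𝒱.V_le_MQ (le_refl N) hposne) :=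
    resInner_cone 𝒱 rp' _ hxG (hcm _ ht) hp0 hposne
  have hQ : ResInner w (𝒱.V_le_MQ (le_refl N) hnegne) :=
    resInner_cone 𝒱 rm _ hxG (hcm _ (H.inv_mem ht)) hm0 hnegne
  have hRH : ∀ c ∈ rp'.R ∪ rm.R, ∃ h ∈ H, c = ((h : G) : G ⧸ N) := by
    rintro c (⟨k, hk⟩ | ⟨k, hk⟩)
    · exact lvl_H hNH ht k hk
    · exact lvl_H hNH (H.inv_mem ht) k hk
  have hRp : ∀ c ∈ rp'.R ∪ rm.R, pu H c = ((1 : G) : G ⧸ H) := by
    intro c hc
    obtain ⟨h, hh, rfl⟩ := hRH c hc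
    rw [pu_mk hNH, eq_comm, QuotientGroup.eq, inv_one, one_mul]
    exact hh
  have hM : AllDer (G := G) (𝒱.MQ (le_refl N) (rp'.R ∪ rm.R)) := by
    refine allDer_cone 𝒱 (fun _ => rfl) (VVq_fin x w) hNH _ hRp ?_ ?_ ?_ hS hcl hN hNinf htf ?_
    · rintro n hn c (⟨k, hk⟩ | ⟨k, hk⟩)
      · exact Or.inl ⟨k, rp'.hN k n hn c hk⟩
      · exact Or.inr ⟨k, rm.hN k n hn c hk⟩
    · intro T
      obtain ⟨y, hy⟩ := hcover T
      refine ⟨y, fun g hg hcon => hy g hg ?_⟩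
      rcases hcon with ⟨k, hk⟩ | ⟨k, hk⟩
      · exact ⟨k, Or.inl hk⟩
      · exact ⟨k, Or.inr hk⟩
    · intro u hu h hh
      obtain ⟨e, he, -, he'⟩ := Subgroup.exists_pow_mem_of_index_ne_zero (hcm _ (H.inv_mem hh))
        (⟨u, hu⟩ : N)
      refine ⟨e, he, ?_⟩
      have h1 : h⁻¹ * (((⟨u, hu⟩ : N) ^ e : N) : G) * h⁻¹⁻¹ ∈ N := he'
      have h2 : (h⁻¹ * u * h) ^ e = h⁻¹ * (((⟨u, hu⟩ : N) ^ e : N) : G) * h⁻¹⁻¹ := by
        have h3 := conj_pow (a := h⁻¹) (b := u) (i := e)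
        rw [inv_inv] at h3
        rw [h3, inv_inv]
        rfl
      rw [h2]
      exact h1
    · rintro E y hbot ⟨T, hT⟩
      refine hB _ y (BY_le y) hbot ⟨T, fun b hb => ?_⟩
      obtain ⟨g, hg, h1⟩ := hT b hb
      refine ⟨g, hg, ?_⟩
      rcases h1 with ⟨k, hk⟩ | ⟨k, hk⟩
      · exact ⟨k, Or.inl hk⟩
      · exact ⟨k, Or.inr hk⟩
  rw [← 𝒱.MQ_sup (le_refl N)] at hM
  have hI : AllDer (G := G) (Du w 𝒱.V) := glueR h (𝒱.MQ (le_refl N) rp'.R)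
    (𝒱.MQ (le_refl N) rm.R) 𝒱.V (𝒱.MQ_inf (le_refl N) hposne hnegne
    (opp_D hNH hcm ht hd)) (𝒱.V_le_MQ (le_refl N) hposne)
    (𝒱.V_le_MQ (le_refl N) hnegne) hP hQ hM
  refine contraQ x w hcl hI hN ?_ ?_
  · intro z k hk hz
    apply Subtype.ext
    exact htf z k hk (congrArg Subtype.val hz)
  · obtain ⟨z, hz⟩ := exists_ne (1 : N)
    exact ⟨z, hz⟩

end

end Pool.Agent.J4H59.PK
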