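import Pool.Agent.J4H59.PJ.AsmT
import Pool.Agent.J4H59.PK.ConeC

/-!
# Subgroups of the commensurator acting on trees: vertex stabilisers
-/

set_option autoImplicit false
set_option linter.unusedSectionVars false

open scoped Classical Pointwise

namespace Pool.Agent.J4H59.PK

open Pool.Agent.Helper386.PD3 Pool.Agent.J4H59.PD Pool.Agent.J4H59.PE Pool.Agent.J4H59.PF
open Pool.Agent.J4H59.PI Pool.Agent.J4H59.PJ Pool.Agent.Helper158

noncomputable section

variable {G : Type} [Group G] {N H : Subgroup G}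

section act

variable {V : Type} {T : SimpleGraph V} [MulAction H V]

/-- elements of a vertex stabiliser over a translate of the cones -/
theorem near_fin (hT : T.IsTree) (hadj : ∀ (h : H) (x y : V), T.Adj x y → T.Adj (h • x) (h • y))
    {v₀ v₁ : V} (he : T.Adj v₀ v₁) (hNH : N ≤ H) (hcm : ∀ h ∈ H, (As N h).index ≠ 0)
    (hst : ∀ h : H, (h : G) ∈ N → h • v₀ = v₀ ∧ h • v₁ = v₁) {t : H} (ht : Sh T v₀ v₁ t)
    (v : V) (g y : G) : ∃ F : Set (G ⧸ N), F.Finite ∧ ∀ b : H, b • v = v →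
      g⁻¹ • ((y * (b : G) : G) : G ⧸ N) ∈ RD N (t : G) → ((y * (b : G) : G) : G ⧸ N) ∈ F := by
  have iso := Pool.Agent.J4H51.PJ.isom hT hadj
  have hpos := sh_pos hT hadj he ht
  have hlv := lvl_sh hT hadj he hNH hst ht
  by_cases hg : g⁻¹ * y ∈ H
  · let C : ℕ := T.dist v₀ ((⟨g⁻¹ * y, hg⟩ : H) • v) + T.dist v v₀
    refine ⟨(fun c => g • c) '' (⋃ k ∈ Finset.range (C + 1),
      (lvl N (t : G) k ∪ lvl N (t : G)⁻¹ k)), ?_, fun b hb hm =>
      ⟨g⁻¹ • ((y * (b : G) : G) : G ⧸ N), ?_, smul_inv_smul _ _⟩⟩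
    · refine Set.Finite.image _ (Set.Finite.biUnion (Finset.finite_toSet _) fun k _ => ?_)
      exact (lvl_finite hNH hcm t.2 k).union (lvl_finite hNH hcm (H.inv_mem t.2) k)
    · obtain ⟨k, hk⟩ := hm
      refine Set.mem_iUnion₂.2 ⟨k, ?_, hk⟩
      let x : H := ⟨g⁻¹ * y, hg⟩ * b
      have hxc : g⁻¹ • ((y * (b : G) : G) : G ⧸ N) = ((x : G) : G ⧸ N) := by
        change ((g⁻¹ * (y * (b : G)) : G) : G ⧸ N) = ((g⁻¹ * y * (b : G) : G) : G ⧸ N)
        rw [mul_assoc]
      have h1 : T.dist v₀ (x • v₀) = k * T.dist v₀ (t • v₀) := by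
        rcases hk with hk | hk
        · rw [hxc] at hk
          exact (hlv k x hk).1
        · rw [hxc] at hk
          have h2 := lvl_symm k hk
          rw [inv_inv] at h2
          have h3 := (hlv k x⁻¹ h2).1
          rw [← h3, SimpleGraph.dist_comm]
          have h4 := iso x v₀ (x⁻¹ • v₀)
          rw [smul_inv_smul] at h4
          exact h4
      have h2 : T.dist v₀ (x • v₀) ≤ C := by
        have h3 := hT.1.dist_triangle (u := v₀) (v := (⟨g⁻¹ * y, hg⟩ : H) • v) (w := x • v₀)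
        have h4 : T.dist ((⟨g⁻¹ * y, hg⟩ : H) • v) (x • v₀) = T.dist v v₀ := by
          change T.dist ((⟨g⁻¹ * y, hg⟩ : H) • v) ((⟨g⁻¹ * y, hg⟩ * b : H) • v₀) = _
          rw [mul_smul, iso]
          conv_lhs => rw [← hb]
          exact iso _ _ _
        rw [h4] at h3
        exact h3
      rw [h1] at h2
      have h5 : k * 1 ≤ k * T.dist v₀ (t • v₀) := Nat.mul_le_mul_left k hpos
      rw [Finset.mem_range]
      omega
  · refine ⟨∅, Set.finite_empty, fun b hb hm => ?_⟩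
    exfalso
    obtain ⟨k, hk⟩ := hm
    have h1 : ∃ h' ∈ H, g⁻¹ • ((y * (b : G) : G) : G ⧸ N) = ((h' : G) : G ⧸ N) := by
      rcases hk with hk | hk
      · exact lvl_H hNH t.2 k hk
      · exact lvl_H hNH (H.inv_mem t.2) k hk
    obtain ⟨h', hh', hh''⟩ := h1
    have hh'' : ((g⁻¹ * (y * (b : G)) : G) : G ⧸ N) = (h' : G ⧸ N) := hh''
    rw [eq_comm, QuotientGroup.eq] at hh''
    apply hg
    have h1 : g⁻¹ * y = h' * (h'⁻¹ * (g⁻¹ * (y * (b : G)))) * (b : G)⁻¹ := by group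
    rw [h1]
    exact H.mul_mem (H.mul_mem hh' (hNH hh'')) (H.inv_mem b.2)

end act

/-- Groups in the commensurator which act on a tree. -/
theorem main_C {n : ℕ} {w : G →* ℤˣ} {e0 e1 e2 e3 d0 d1 d2 : MR G n}
    (h : Full w e0 e1 e2 e3 d0 d1 d2) (hfgG : Group.FG G) (hG : AllDer (G := G) (RR G))
    (htf : ∀ (x : G) (k : ℤ), k ≠ 0 → x ^ k = 1 → x = 1)
    (hfg : N.FG) (hNinf : Infinite N) (hN : AllDer (G := N) (RR N))
    (hNH : N ≤ H) (hcm : ∀ h ∈ H, (As N h).index ≠ 0)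
    {V : Type} {T : SimpleGraph V} (hT : T.IsTree) [MulAction H V]
    (hadj : ∀ (h : H) (x y : V), T.Adj x y → T.Adj (h • x) (h • y))
    {v₀ v₁ : V} (he : T.Adj v₀ v₁) (hst : ∀ h : H, (h : G) ∈ N → h • v₀ = v₀ ∧ h • v₁ = v₁)
    {t : H} (ht : Sh T v₀ v₁ t) : H.index ≠ 0 ∧
      ∀ v : V, {c : G ⧸ N | ∃ b : H, b • v = v ∧ c = ((b : G) : G ⧸ N)}.Finite := by
  have hpos := sh_pos hT hadj he ht
  have hlv := lvl_sh hT hadj he hNH hst ht
  have hd : ∀ k l c, c ∈ lvl N (t : G) k → c ∈ lvl N (t : G) l → k = l := by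
    intro k l c hk hl
    obtain ⟨x, hx, rfl⟩ := lvl_H hNH t.2 k hk
    have h1 := (hlv k ⟨x, hx⟩ hk).1
    have h2 := (hlv l ⟨x, hx⟩ hl).1
    rw [h1] at h2
    exact Nat.eq_of_mul_eq_mul_right hpos h2
  have hcover : ∃ S : Finset G, ∀ y : G ⧸ N, ∃ g ∈ S, g⁻¹ • y ∈ RD N (t : G) := by
    refine core_C h hfgG htf hfg hNinf hN hNH hcm t.2 hd ?_
    rintro B y hBH hbot ⟨T', hT'⟩
    let _ : MulAction B V := MulAction.compHom V (Subgroup.inclusion hBH)
    have hact : ∀ (b : B) (v : V), b • v = (Subgroup.inclusion hBH b) • v := fun b v => rfl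
    refine allDer_pr1 h hG (pr1_of_tree V T hT ?_ ?_ htf)
    · intro b u v huv
      rw [hact, hact]
      exact hadj _ _ _ huv
    · intro b v hbv
      rw [hact] at hbv
      choose F hF hF' using fun g : G => near_fin hT hadj he hNH hcm hst ht v g y
      have hbm : ∀ m : ℕ, (Subgroup.inclusion hBH b) ^ m • v = v := by
        intro m
        induction m with
        | zero => rw [pow_zero, one_smul]
        | succ m ih => rw [pow_succ, mul_smul, hbv, ih]
      apply Subtype.ext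
      refine eq_one_of_cells htf hbot b.2 y (F := ⋃ g ∈ T', F g)
        (Set.Finite.biUnion T'.finite_toSet fun g _ => hF g) fun m => ?_
      obtain ⟨g, hg, h1⟩ := hT' ((b : G) ^ m) (B.pow_mem b.2 m)
      exact Set.mem_iUnion₂.2 ⟨g, hg, hF' g _ (hbm m) h1⟩
  obtain ⟨S, hS⟩ := hcover
  refine ⟨?_, fun v => ?_⟩
  · have hfin : Finite (G ⧸ H) := by
      rw [← Set.finite_univ_iff]
      refine (S.finite_toSet.image fun g : G => (g : G ⧸ H)).subset ?_
      intro a _
      induction a using QuotientGroup.induction_on with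
      | H a =>
        obtain ⟨g, hg, k, hk⟩ := hS (a : G ⧸ N)
        have h1 : ∃ h' ∈ H, g⁻¹ • (a : G ⧸ N) = ((h' : G) : G ⧸ N) := by
          rcases hk with hk | hk
          · exact lvl_H hNH t.2 k hk
          · exact lvl_H hNH (H.inv_mem t.2) k hk
        obtain ⟨h', hh', hh''⟩ := h1
        have hh'' : ((g⁻¹ * a : G) : G ⧸ N) = (h' : G ⧸ N) := hh''
        rw [eq_comm, QuotientGroup.eq] at hh''
        refine ⟨g, hg, ?_⟩
        change (g : G ⧸ H) = (a : G ⧸ H)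
        rw [QuotientGroup.eq]
        have h1 : g⁻¹ * a = h' * (h'⁻¹ * (g⁻¹ * a)) := by group
        rw [h1]
        exact H.mul_mem hh' (hNH hh'')
    exact Subgroup.index_ne_zero_of_finite
  · choose F hF hF' using fun g : G => near_fin hT hadj he hNH hcm hst ht v g 1
    refine (Set.Finite.biUnion S.finite_toSet fun g _ => hF g).subset ?_
    rintro c ⟨b, hb, rfl⟩
    obtain ⟨g, hg, h1⟩ := hS ((b : G) : G ⧸ N)
    refine Set.mem_iUnion₂.2 ⟨g, hg, ?_⟩
    have h2 := hF' g b hb (by rw [one_mul]; exact h1)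
    rwa [one_mul] at h2

end

end Pool.Agent.J4H59.PK
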