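import Pool.Agent.J4H59.PJ.MainT
import Pool.Agent.J4H59.PK.AsmC

/-!
# Subgroups of the commensurator acting on trees: the final statement with vertex stabilisers
-/

set_option autoImplicit false
set_option linter.unusedSectionVars false

open scoped Classical Pointwise

namespace Pool.Agent.J4H59.PK

open Pool.Agent.Helper386.PD3 Pool.Agent.J4H59.PD Pool.Agent.J4H59.PE Pool.Agent.J4H59.PF
open Pool.Agent.J4H59.PG Pool.Agent.J4H59.PI Pool.Agent.J4H59.PJ Pool.Agent.Helper158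

noncomputable section

variable {G : Type} [Group G] {N H : Subgroup G}

/-- finitely many cosets -/
theorem relIndex_of_fin {S : Subgroup H} {F : Set (G ⧸ N)} (hF : F.Finite)
    (h : ∀ b ∈ S, ((b : G) : G ⧸ N) ∈ F) : (N.subgroupOf H).relIndex S ≠ 0 := by
  have hfin : Finite F := hF
  have h1 : Finite (S ⧸ (N.subgroupOf H).subgroupOf S) := by
    refine Finite.of_injective (fun q : S ⧸ (N.subgroupOf H).subgroupOf S =>
      (⟨(((Quotient.out q : S) : H) : G), h _ (Quotient.out q).2⟩ : F)) ?_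
    intro q q' hqq
    have h2 : ((((Quotient.out q : S) : H) : G) : G ⧸ N) =
        ((((Quotient.out q' : S) : H) : G) : G ⧸ N) := congrArg Subtype.val hqq
    rw [QuotientGroup.eq] at h2
    rw [← Quotient.out_eq' q, ← Quotient.out_eq' q']
    change (QuotientGroup.mk (Quotient.out q : S) : S ⧸ (N.subgroupOf H).subgroupOf S) =
      QuotientGroup.mk (Quotient.out q' : S)
    rw [QuotientGroup.eq, Subgroup.mem_subgroupOf, Subgroup.mem_subgroupOf]
    exact h2
  exact Subgroup.index_ne_zero_of_finite (H := (N.subgroupOf H).subgroupOf S)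

/-- Groups in the commensurator which act on a tree without a fixed point. -/
theorem one_C {n : ℕ} {w : G →* ℤˣ} {e0 e1 e2 e3 d0 d1 d2 : MR G n}
    (h : Full w e0 e1 e2 e3 d0 d1 d2) (hfgG : Group.FG G) (hG : AllDer (G := G) (RR G))
    (htf : ∀ (x : G) (k : ℤ), k ≠ 0 → x ^ k = 1 → x = 1)
    (hfg : N.FG) (hne : N ≠ ⊥) (hN : AllDer (G := N) (RR N))
    (hNH : N ≤ H) (hcm : H ≤ Subgroup.Commensurable.commensurator N)
    {V : Type} {T : SimpleGraph V} (hT : T.IsTree) [MulAction H V]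
    (hadj : ∀ (h : H) (x y : V), T.Adj x y → T.Adj (h • x) (h • y))
    {x₀ : V} (hfix : ∀ h : H, (h : G) ∈ N → h • x₀ = x₀)
    {t : H} (ht : ∀ x : V, t • t • x ≠ x) : H.index ≠ 0 ∧
      ∀ v : V, (N.subgroupOf H).relIndex (MulAction.stabilizer H v) ≠ 0 := by
  obtain ⟨v₀, v₁, he, hsh, hst⟩ := Pool.Agent.J4H53.PJ.hyp V T hT H hadj t ht x₀
  have hti : (t : G)⁻¹ ∈ Subgroup.Commensurable.commensurator N :=
    Subgroup.inv_mem _ (hcm t.2)
  obtain ⟨N₀, hN₀, hfi, hconj, hAll⟩ := exists_sub (as_of_comm hti)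
  have hNinf : Infinite N := inf_of_ne_bot htf hne
  have hN₀ne : N₀ ≠ ⊥ := by
    intro h1
    rw [h1, Subgroup.relIndex_bot_left] at hfi
    exact hfi Nat.card_eq_zero_of_infinite
  have hco : Subgroup.Commensurable N₀ N := by
    refine ⟨hfi, ?_⟩
    rw [Subgroup.relIndex_eq_one.2 hN₀]
    exact one_ne_zero
  have hcm0 : ∀ h ∈ H, (As N₀ h).index ≠ 0 := by
    intro g hg
    refine as_of_comm ?_
    rw [hco.eq]
    exact hcm hg
  have hst0 : ∀ g : H, (g : G) ∈ N₀ → g • v₀ = v₀ ∧ g • v₁ = v₁ := by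
    intro g hg
    refine hst g (hfix g (hN₀ hg)) ?_
    have h1 : ((t⁻¹ * g * t : H) : G) ∈ N := by
      have h2 := hconj g hg
      rw [inv_inv] at h2
      exact h2
    have h2 := hfix _ h1
    have h3 : g • t • x₀ = t • (t⁻¹ * g * t) • x₀ := by
      rw [← mul_smul, ← mul_smul]
      congr 1
      group
    rw [h3, h2]
  obtain ⟨h1, h2⟩ := main_C h hfgG hG htf (fg_of_fi hfg hN₀ hfi) (inf_of_ne_bot htf hN₀ne)
    (hAll hN) (hN₀.trans hNH) hcm0 hT hadj he hst0 hsh
  refine ⟨h1, fun v => relIndex_of_fin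
    ((h2 v).image fun c : G ⧸ N₀ => Subgroup.quotientMapOfLE hN₀ c) fun b hb =>
    ⟨((b : G) : G ⧸ N₀), ⟨b, hb, rfl⟩, rfl⟩⟩


variable {P : ℕ → Type} [∀ i, AddCommGroup (P i)]
  [∀ i, Module (MonoidAlgebra ℤ G) (P i)] {d : ∀ i, P (i + 1) →ₗ[MonoidAlgebra ℤ G] P i}
  {ε : P 0 →+ ℤ}

theorem main_Stab (hR : Reso P d ε) (m : ℕ) (hm : ∀ i, m < i → Subsingleton (P i))
    [∀ i, Module.Finite (MonoidAlgebra ℤ G) (P i)]
    [∀ i, Module.Projective (MonoidAlgebra ℤ G) (P i)]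
    (hcoh : ∀ i, i ≠ 3 → Subsingleton (groupCohomology (Rep.leftRegular ℤ G) i))
    (htop : Nonempty (groupCohomology (Rep.leftRegular ℤ G) 3 ≃+ ℤ))
    (N : Subgroup G) (ι : Type) [Finite ι] (A : ι → Subgroup G)
    (hinj : Function.Injective (Monoid.CoprodI.lift fun i => (A i).subtype))
    (hrange : (Monoid.CoprodI.lift fun i => (A i).subtype).range = N)
    (hAfg : ∀ i, (A i).FG)
    (hA : ∀ i, Nonempty (A i ≃* Multiplicative ℤ) ∨
      Subsingleton (groupCohomology (Rep.leftRegular ℤ (A i)) 1))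
    (i : ι) (hi : A i ≠ ⊥) (hone : Subsingleton (groupCohomology (Rep.leftRegular ℤ (A i)) 1))
    (hNH : N ≤ H) (hcm : H ≤ Subgroup.Commensurable.commensurator N)
    {V : Type} {T : SimpleGraph V} (hT : T.IsTree) [MulAction H V]
    (hadj : ∀ (h : H) (x y : V), T.Adj x y → T.Adj (h • x) (h • y))
    {x₀ : V} (hfix : ∀ h : H, (h : G) ∈ N → h • x₀ = x₀)
    {t : H} (ht : ∀ x : V, t • t • x ≠ x) : A i = N ∧ H.FiniteIndex ∧
      ∀ v : V, (N.subgroupOf H).relIndex (MulAction.stabilizer H v) ≠ 0 := by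
  obtain ⟨hEq, hfi⟩ := main_Tree hR m hm hcoh htop N ι A hinj hrange hAfg hA i hi hone hNH hcm hT
    hadj hfix ht
  refine ⟨hEq, hfi, ?_⟩
  obtain ⟨w, n, e0, e1, e2, e3, d0, d1, d2, hFull⟩ := exists_full hR m hm hcoh htop
  have hone' : AllDer (G := N) (RR N) := by
    have := allDer_RR hone
    rw [hEq] at this
    exact this
  rw [hEq] at hi
  have hNfg : N.FG := by
    rw [← hEq]
    exact hAfg i
  exact (one_C hFull (fg_of_low hFull.low) (allDer_RR (hcoh 1 (by norm_num)))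
    (tf_int hR m hm) hNfg hi hone' hNH hcm hT hadj hfix ht).2

end

end Pool.Agent.J4H59.PK
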